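import Pool.Agent.L0h45.AV.Stm

/-!
# Module COV of project AV (helper45): covering a compact set by small cubes
-/

set_option autoImplicit false
set_option linter.all false

open MeasureTheory Set Metric
open scoped Classical

namespace Pool.Agent.L0h85.AV.COV

open Pool.Agent.L0h45.AV

/-- the grid cube -/
def Qb (h : ℝ) (n : Fin 4 → ℤ) : Set (Fin 4 → ℝ) :=
  Set.pi Set.univ fun i => Set.Ico (h * n i) (h * n i + h)

theorem mem_Qb {h : ℝ} (hh : 0 < h) (n : Fin 4 → ℤ) (u : Fin 4 → ℝ) :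
    u ∈ Qb h n ↔ ∀ i, ⌊u i / h⌋ = n i := by
  unfold Qb
  rw [Set.mem_univ_pi]
  refine forall_congr' fun i => ?_
  rw [Set.mem_Ico, Int.floor_eq_iff, le_div_iff₀ hh, div_lt_iff₀ hh]
  constructor
  · rintro ⟨h1, h2⟩
    exact ⟨by linarith, by linarith⟩
  · rintro ⟨h1, h2⟩
    exact ⟨by linarith, by linarith⟩

theorem vol_Qb {h : ℝ} (hh : 0 < h) (n : Fin 4 → ℤ) : volume (Qb h n) = ENNReal.ofReal (h ^ 4) := by
  unfold Qb
  rw [Real.volume_pi_Ico]
  simp only [add_sub_cancel_left]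
  rw [Finset.prod_const, Finset.card_univ, Fintype.card_fin, ENNReal.ofReal_pow hh.le]

theorem meas_Qb (h : ℝ) (n : Fin 4 → ℤ) : MeasurableSet (Qb h n) :=
  MeasurableSet.pi Set.countable_univ fun _ _ => measurableSet_Ico

theorem t_COV : S_COV := by
  intro K hK ε hε
  have hKf : volume K ≠ ⊤ := hK.measure_lt_top.ne
  obtain ⟨V, hKV, hVo, hV⟩ := K.exists_isOpen_lt_of_lt (volume K + ENNReal.ofReal ε)
    (ENNReal.lt_add_right hKf (ENNReal.ofReal_pos.2 hε).ne')
  obtain ⟨δ, hδ, hδV⟩ := hK.exists_thickening_subset_open hVo hKV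
  obtain ⟨h, hh0, hhε, hhδ⟩ : ∃ h : ℝ, 0 < h ∧ h < ε ∧ 2 * h < δ := by
    refine ⟨min ε δ / 3, by positivity, ?_, ?_⟩
    · have := min_le_left ε δ
      linarith
    · have := min_le_right ε δ
      linarith
  obtain ⟨R, hR⟩ := (hK.isBounded.thickening (δ := h)).subset_closedBall 0
  set I : Finset (Fin 4 → ℤ) := (Fintype.piFinset fun _ : Fin 4 => Finset.Icc ⌊-R / h⌋ ⌊R / h⌋).filter
    (fun n => (Qb h n ∩ thickening h K).Nonempty) with hI
  refine ⟨h, I.image fun n i => h * n i, thickening h K, hh0, hhε, isOpen_thickening,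
    self_subset_thickening hh0 K, ?_, ?_⟩
  · intro u hu
    have h1 : u ∈ Qb h fun i => ⌊u i / h⌋ := (mem_Qb hh0 _ _).2 fun _ => rfl
    refine ⟨fun i => h * ((⌊u i / h⌋ : ℤ) : ℝ), ?_, ?_⟩
    · rw [Finset.mem_image]
      refine ⟨fun i => ⌊u i / h⌋, ?_, rfl⟩
      rw [hI, Finset.mem_filter, Fintype.mem_piFinset]
      refine ⟨fun i => ?_, ⟨u, h1, hu⟩⟩
      have h2 : ‖u i‖ ≤ R := (norm_le_pi_norm u i).trans (mem_closedBall_zero_iff.1 (hR hu))
      rw [Real.norm_eq_abs, abs_le] at h2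
      rw [Finset.mem_Icc]
      exact ⟨Int.floor_le_floor (div_le_div_of_nonneg_right h2.1 hh0.le),
        Int.floor_le_floor (div_le_div_of_nonneg_right h2.2 hh0.le)⟩
    · intro i
      have h2 := (Set.mem_univ_pi.1 h1) i
      exact ⟨h2.1, h2.2.le⟩
  · have hsub : ∀ n ∈ I, Qb h n ⊆ V := by
      intro n hn v hv
      rw [hI, Finset.mem_filter] at hn
      obtain ⟨u, hu, huK⟩ := hn.2
      obtain ⟨k, hk, huk⟩ := mem_thickening_iff.1 huK
      apply hδV
      refine mem_thickening_iff.2 ⟨k, hk, ?_⟩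
      have h1 : dist v u ≤ h := by
        rw [dist_pi_le_iff hh0.le]
        intro i
        have h2 := (Set.mem_univ_pi.1 hu) i
        have h3 := (Set.mem_univ_pi.1 hv) i
        rw [Real.dist_eq, abs_le]
        constructor
        · linarith [h2.1, h2.2, h3.1, h3.2]
        · linarith [h2.1, h2.2, h3.1, h3.2]
      calc dist v k ≤ dist v u + dist u k := dist_triangle _ _ _
        _ < h + h := by linarith
        _ < δ := by linarith
    have hdis : (I : Set (Fin 4 → ℤ)).PairwiseDisjoint (Qb h) := by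
      intro n _ m _ hnm
      rw [Function.onFun, Set.disjoint_left]
      intro u hu hu'
      apply hnm
      funext i
      rw [← (mem_Qb hh0 n u).1 hu i, ← (mem_Qb hh0 m u).1 hu' i]
    have h1 : volume (⋃ n ∈ I, Qb h n) = ∑ n ∈ I, volume (Qb h n) :=
      measure_biUnion_finset hdis fun n _ => meas_Qb h n
    have h2 : volume (⋃ n ∈ I, Qb h n) ≤ volume V := measure_mono (Set.iUnion₂_subset hsub)
    have h3 : ENNReal.ofReal ((I.card : ℝ) * h ^ 4) ≤ ENNReal.ofReal ((volume K).toReal + ε) := by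
      have e1 : ENNReal.ofReal ((I.card : ℝ) * h ^ 4) = ∑ n ∈ I, volume (Qb h n) := by
        rw [Finset.sum_congr rfl fun n _ => vol_Qb hh0 n, Finset.sum_const, nsmul_eq_mul,
          ENNReal.ofReal_mul (Nat.cast_nonneg _), ENNReal.ofReal_natCast]
      have e2 : ENNReal.ofReal ((volume K).toReal + ε) = volume K + ENNReal.ofReal ε := by
        rw [ENNReal.ofReal_add ENNReal.toReal_nonneg hε.le, ENNReal.ofReal_toReal hKf]
      rw [e1, e2, ← h1]
      exact h2.trans hV.le
    have h4 : (I.card : ℝ) * h ^ 4 ≤ (volume K).toReal + ε :=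
      (ENNReal.ofReal_le_ofReal_iff (by positivity)).1 h3
    refine le_trans ?_ h4
    exact mul_le_mul_of_nonneg_right (by exact_mod_cast Finset.card_image_le) (by positivity)

end Pool.Agent.L0h85.AV.COV
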