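import Pool.Agent.L0h45.AV.Stm

/-!
# Module FBS of project AV (helper45): the tuples in a class with given `x`, `y` and `c`, `z` in given intervals
-/

set_option autoImplicit false
set_option linter.all false

open Finset
open scoped Classical

namespace Pool.Agent.L0h85.AV

open Pool.Agent.L0h45.AV
open Pool.Agent.L0h45.LR (tn Bx Cgr)
open Pool.Agent.N874.PP (Tup chA chB gq tau)

/-- the numbers `γ` with `b₀ < β + M γ ≤ b₀ + h` -/
theorem prog (M : ℕ) (hM : 1 ≤ M) (b₀ β : ℤ) (h : ℕ) : ∃ (u : ℤ) (n : ℕ), (n : ℝ) ≤ (h : ℝ) / M + 1 ∧ n ≤ h ∧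
    ∀ γ : ℤ, γ ∈ Ioc u (u + n) ↔ b₀ < β + M * γ ∧ β + M * γ ≤ b₀ + h := by
  have hMz : (0 : ℤ) < M := by exact_mod_cast hM
  have hM0 : (0 : ℝ) < M := by exact_mod_cast hM
  obtain ⟨u, hu⟩ : ∃ u : ℤ, u = (b₀ - β) / M := ⟨_, rfl⟩
  obtain ⟨v, hv⟩ : ∃ v : ℤ, v = (b₀ + h - β) / M := ⟨_, rfl⟩
  have huv : u ≤ v := by
    rw [hu, hv]
    exact Int.ediv_le_ediv hMz (by omega)
  obtain ⟨n, hn⟩ : ∃ n : ℕ, v = u + n := ⟨(v - u).toNat, by rw [Int.toNat_of_nonneg (by linarith)]; ring⟩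
  have h2 : v * M ≤ b₀ + h - β := by rw [hv]; exact Int.ediv_mul_le _ (by omega)
  have h3 : b₀ - β < (u + 1) * M := by rw [hu]; exact Int.lt_ediv_add_one_mul_self _ hMz
  have h2' : (u + n) * M ≤ b₀ + h - β := by rw [← hn]; exact h2
  have h4 : (n : ℤ) * M ≤ h + M - 1 := by linarith
  refine ⟨u, n, ?_, ?_, fun γ => ?_⟩
  · have h5 : (n : ℝ) * M ≤ h + M := by
      have h6 : (n : ℤ) * M ≤ h + M := by linarith
      exact_mod_cast h6
    rw [div_add_one hM0.ne', le_div_iff₀ hM0]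
    exact h5
  · by_contra hcon
    push Not at hcon
    have h5 : ((h : ℤ) + 1) * M ≤ n * M := mul_le_mul_of_nonneg_right (by exact_mod_cast hcon) hMz.le
    have h6 : (h : ℤ) * 1 ≤ h * M := mul_le_mul_of_nonneg_left (by exact_mod_cast hM) (by positivity)
    nlinarith
  · rw [← hn, mem_Ioc, hu, hv, Int.ediv_lt_iff_lt_mul hMz, Int.le_ediv_iff_mul_le hMz]
    constructor
    · rintro ⟨h1, h2⟩
      constructor <;> linarith
    · rintro ⟨h1, h2⟩
      constructor <;> linarith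

theorem dl_nonneg (x e : ℤ) : 0 ≤ dl x e := by
  unfold dl
  split_ifs <;> norm_num

theorem rg_nonneg (g : ℕ) : 0 ≤ rg g := by
  unfold rg
  split_ifs
  · norm_num
  · positivity

theorem t_FBS : Pool.Agent.L0h45.LR.S_EQ → S_GAM → S_FBS := by
  intro hEQ hGAM
  intro L M g₀ g h k a β x y e c₁ z₁ hL hM h2M hOk hβx hβy hx hgcd hg₀ hgM he hxL hhL S hS
  have hx' : 0 < |(x : ℝ)| := abs_pos.2 (by exact_mod_cast hx)
  have hMz : (0 : ℤ) < M := by exact_mod_cast hM
  have hM0 : (0 : ℝ) < M := by exact_mod_cast hM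
  obtain ⟨u, n, hn1, hn2, hu⟩ := prog M hM c₁ β.c h
  obtain ⟨s, t, ht1, ht2, hs⟩ := prog M hM z₁ β.z k
  have hnL : (n : ℝ) ≤ L := le_trans (by exact_mod_cast hn2) hhL
  have hxabs : ((x.natAbs : ℕ) : ℝ) = |(x : ℝ)| := by
    rw [Nat.cast_natAbs, Int.cast_abs]
  have hX1 : 1 ≤ x.natAbs := Int.natAbs_pos.2 hx
  have hmain := hEQ L x.natAbs (3 * M) (6 * β.c) (2 * y) e u s n t hX1 (by rw [hxabs]; exact hxL) hnL
    (by positivity)
  have hgg : Int.gcd ((x.natAbs : ℕ) : ℤ) (2 * y) = Int.gcd x (2 * y) := by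
    unfold Int.gcd; simp [Int.natAbs_abs]
  rw [hgg] at hmain
  -- injection
  have hcard : (S.card : ℝ) ≤ ((((Ioc u (u + n)) ×ˢ (Ioc s (s + t))).filter
      (fun z : ℤ × ℤ => ((x.natAbs : ℕ) : ℤ) ∣ 3 * M * z.1 ^ 2 + 6 * β.c * z.1 + 2 * y * z.2 + e)).card : ℝ) := by
    have : S.card ≤ (((Ioc u (u + n)) ×ˢ (Ioc s (s + t))).filter
      (fun z : ℤ × ℤ => ((x.natAbs : ℕ) : ℤ) ∣ 3 * M * z.1 ^ 2 + 6 * β.c * z.1 + 2 * y * z.2 + e)).card := by
      refine card_le_card_of_injOn (fun B => ((B.c - β.c) / M, (B.z - β.z) / M)) ?_ ?_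
      · intro B hB
        rw [mem_coe] at hB
        obtain ⟨h1, h2, h3, h4, h5, h6, h7, h8⟩ := hS B hB
        obtain ⟨γ, hγ1⟩ := h4.c
        obtain ⟨ζ, hζ1⟩ := h4.z
        obtain ⟨ω, hω1⟩ := h4.w
        have g1 : (B.c - β.c) / (M : ℤ) = γ := by rw [hγ1]; exact Int.mul_ediv_cancel_left _ (by omega)
        have g2 : (B.z - β.z) / (M : ℤ) = ζ := by rw [hζ1]; exact Int.mul_ediv_cancel_left _ (by omega)
        simp only [coe_filter, Set.mem_setOf_eq, mem_product, g1, g2]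
        refine ⟨⟨?_, ?_⟩, ?_⟩
        · rw [hu]
          have : β.c + M * γ = B.c := by linarith
          rw [this]
          exact ⟨h5, h6⟩
        · rw [hs]
          have : β.z + M * ζ = B.z := by linarith
          rw [this]
          exact ⟨h7, h8⟩
        · rw [Int.natAbs_dvd]
          refine ⟨-ω, ?_⟩
          have h8 : (M : ℤ) * (3 * M * γ ^ 2 + 6 * β.c * γ + 2 * y * ζ + e) = M * (x * -ω) := by
            have h9 : chA B = a := h3
            unfold chA at h9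
            rw [h1, h2] at h9
            have c1 : B.c = β.c + M * γ := by linarith
            have c2 : B.z = β.z + M * ζ := by linarith
            have c3 : B.w = β.w + M * ω := by linarith
            rw [c1, c2, c3] at h9
            linear_combination (-1 : ℤ) * h9 + he
          exact mul_left_cancel₀ (by omega) h8
      · intro B hB B' hB' hBB
        rw [mem_coe] at hB hB'
        obtain ⟨h1, h2, h3, h4, h5, h6, h7, h8⟩ := hS B hB
        obtain ⟨k1, k2, k3, k4, k5, k6, k7, k8⟩ := hS B' hB'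
        simp only [Prod.mk.injEq] at hBB
        have m1 : B.c = B'.c := by
          obtain ⟨γ, hγ1⟩ := h4.c
          obtain ⟨γ', hγ1'⟩ := k4.c
          rw [hγ1, hγ1', Int.mul_ediv_cancel_left _ (by omega), Int.mul_ediv_cancel_left _ (by omega)] at hBB
          rw [hBB.1] at hγ1
          linarith
        have m2 : B.z = B'.z := by
          obtain ⟨γ, hγ1⟩ := h4.z
          obtain ⟨γ', hγ1'⟩ := k4.z
          rw [hγ1, hγ1', Int.mul_ediv_cancel_left _ (by omega : (M : ℤ) ≠ 0), Int.mul_ediv_cancel_left _ (by omega : (M : ℤ) ≠ 0)] at hBB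
          rw [hBB.2] at hγ1
          linarith
        have m3 : B.w = B'.w := by
          have h9 : chA B = a := h3
          have h10 : chA B' = a := k3
          unfold chA at h9 h10
          rw [h1, h2, m1, m2] at h9
          rw [k1, k2] at h10
          have : x * B.w = x * B'.w := by linarith
          exact mul_left_cancel₀ hx this
        ext
        · rw [h1, k1]
        · rw [h2, k2]
        · exact m1
        · exact m2
        · exact m3
    exact_mod_cast this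
  refine hcard.trans (hmain.trans ?_)
  have hgam := hGAM M g₀ g a β x y e hM h2M hOk hβx hβy hx hgcd hg₀ hgM he u n
  obtain ⟨R, hR⟩ : ∃ R : ℝ, R = (((Ioc u (u + n)).filter
    (fun γ : ℤ => ((Int.gcd x (2 * y) : ℕ) : ℤ) ∣ 3 * M * γ ^ 2 + 6 * β.c * γ + e)).card : ℝ) := ⟨_, rfl⟩
  have hR0 : 0 ≤ R := by rw [hR]; positivity
  rw [← hR] at hgam
  rw [← hR, hxabs]
  have hgr : ((Int.gcd x (2 * y) : ℕ) : ℝ) = g₀ * g := by
    rw [hgcd]
    push_cast
    ring
  rw [hgr]
  have hC : √|((3 * M : ℤ) : ℝ)| = √(3 * M : ℝ) := by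
    congr 1
    push_cast
    exact abs_of_pos (by positivity)
  rw [hC]
  refine add_le_add ?_ le_rfl
  have e1 : (g₀ * g : ℝ) / |(x : ℝ)| * t * R = (g₀ * g * R) * t / |(x : ℝ)| := by ring
  rw [e1]
  refine div_le_div_of_nonneg_right ?_ hx'.le
  have hd := dl_nonneg x e
  have hr := rg_nonneg g
  have h5 : (n : ℝ) + M * g ≤ (h : ℝ) / M + 1 + M * g := by linarith
  have h6 : (g₀ * g * R : ℝ) ≤ dl x e * rg g * ((h : ℝ) / M + 1 + M * g) :=
    hgam.trans (mul_le_mul_of_nonneg_left h5 (mul_nonneg hd hr))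
  exact mul_le_mul h6 ht1 (by positivity) (le_trans (by positivity) h6)

end Pool.Agent.L0h85.AV
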