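import Pool.Agent.L0h45.AV.Stm2
import Pool.Agent.N187.PP.GB
import Pool.Agent.N630.PP.GP

/-!
Module SBM of the project AV (helper45), by helper85: products of the `β`.
-/

set_option autoImplicit false
set_option linter.all false

open Polynomial IsDedekindDomain WeierstrassCurve WeierstrassCurve.Affine
open Pool.Agent.TH115.GD
open scoped Classical

namespace Pool.Agent.L0h85.AV.SBM

open Pool.Agent.N874.PP (sW IsBeta Rt sg)
open Pool.Agent.N187.PP (rt_iff rt_map' F_monic F_natDegree sg_mul_self)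
open Pool.Agent.N922.PQ (dsc)
open Pool.Agent.L0h45.AV

theorem F_sep' {K : Type} [Field K] {A B : K} (hd : 4 * A ^ 3 + 27 * B ^ 2 ≠ 0) :
    (X ^ 3 + C A * X + C B : K[X]).Separable := by
  have hder : derivative (X ^ 3 + C A * X + C B : K[X]) = 3 * X ^ 2 + C A := by
    simp
    have h2 : (C 2 : K[X]) = 2 := rfl
    rw [h2]
    norm_num
  rw [Polynomial.separable_def, hder]
  refine ⟨C (4 * A ^ 3 + 27 * B ^ 2)⁻¹ * (-18 * C A * X + 27 * C B),
    C (4 * A ^ 3 + 27 * B ^ 2)⁻¹ * (6 * C A * X ^ 2 - 9 * C B * X + 4 * C A ^ 2), ?_⟩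
  have h1 : (C (4 * A ^ 3 + 27 * B ^ 2)⁻¹ : K[X]) * (4 * C A ^ 3 + 27 * C B ^ 2) = 1 := by
    have h2 : (4 * C A ^ 3 + 27 * C B ^ 2 : K[X]) = C (4 * A ^ 3 + 27 * B ^ 2) := by
      simp only [C_add, C_mul, C_pow]
      have h4 : (C 4 : K[X]) = 4 := rfl
      have h27 : (C 27 : K[X]) = 27 := rfl
      rw [h4, h27]
    rw [h2, ← C_mul, inv_mul_cancel₀ hd, C_1]
  linear_combination h1

/-- Three different zeros. -/
theorem exists_roots' {K : Type} [Field K] {A B : K} (hd : 4 * A ^ 3 + 27 * B ^ 2 ≠ 0) :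
    ∃ t₁ t₂ t₃ : Sep K, t₁ ≠ t₂ ∧ t₁ ≠ t₃ ∧ t₂ ≠ t₃ ∧ Rt A B t₁ ∧ Rt A B t₂ ∧ Rt A B t₃ := by
  have hs := F_sep' hd
  have hsp : ((X ^ 3 + C A * X + C B : K[X]).map (algebraMap K (Sep K))).Splits :=
    IsSepClosed.splits_codomain _ hs
  have hm := F_monic (A := A) (B := B)
  have hcard : Multiset.card ((X ^ 3 + C A * X + C B : K[X]).map (algebraMap K (Sep K))).roots = 3 := by
    rw [← hsp.natDegree_eq_card_roots, hm.natDegree_map, F_natDegree]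
  have hnd : ((X ^ 3 + C A * X + C B : K[X]).map (algebraMap K (Sep K))).roots.Nodup :=
    nodup_roots hs.map
  obtain ⟨t₁, t₂, t₃, h⟩ := Multiset.card_eq_three.1 hcard
  have hmem : ∀ t : Sep K, Rt A B t ↔
      t ∈ ((X ^ 3 + C A * X + C B : K[X]).map (algebraMap K (Sep K))).roots := by
    intro t
    rw [mem_roots (hm.map _).ne_zero, rt_iff, IsRoot.def, eval_map_algebraMap]
  rw [h] at hmem hnd
  simp only [Multiset.insert_eq_cons, Multiset.mem_cons, Multiset.mem_singleton] at hmem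
  simp at hnd
  exact ⟨t₁, t₂, t₃, hnd.1.1, hnd.1.2, hnd.2, (hmem _).2 (by simp), (hmem _).2 (by simp),
    (hmem _).2 (by simp)⟩

theorem t_SBM : S_SBM := by
  intro a b f g β γ hd hf hg hβ hγ t ht
  have h6 : (6 : ℚ) ≠ 0 := by norm_num
  have hd' : 4 * (a : ℚ) ^ 3 + 27 * (b : ℚ) ^ 2 ≠ 0 := by
    have h1 : (4 * a ^ 3 + 27 * b ^ 2 : ℤ) ≠ 0 := hd
    exact_mod_cast h1
  obtain ⟨t₁, t₂, t₃, n1, n2, n3, r1, r2, r3⟩ := exists_roots' hd'
  have hmul := (Pool.Agent.N630.PP.gp3 ℚ (Sep ℚ) (a : ℚ) (b : ℚ) h6 hd' t₁ t₂ t₃ r1 r2 r3 n1 n2 n3).2.1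
  refine ⟨mul_ne_zero (hβ t ht).1 (hγ t ht).1, fun σ => ?_⟩
  have hneg : f σ - g σ = f σ + g σ := by
    have h2 : g σ + g σ = 0 := by rw [← two_nsmul]; exact hg σ
    rw [sub_eq_add_neg, neg_eq_of_add_eq_zero_left h2]
  show σ (β t * γ t) = sg (f σ - g σ) (σ t) * (β (σ t) * γ (σ t))
  rw [hneg, hmul _ _ (σ t) (hf σ) (hg σ) (rt_map' σ ht), map_mul, (hβ t ht).2 σ, (hγ t ht).2 σ]
  ring

end Pool.Agent.L0h85.AV.SBM
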